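import Mathlib

namespace Pool.Agent.Results.MP_057a77_an.Rioul

open Complex MeasureTheory

/-- The Zak transform `Zf(t,ξ) = ∑_k f(t+k) e^{2πikξ}`. -/
noncomputable def zak (f : ℝ → ℂ) (t ξ : ℝ) : ℂ :=
  ∑' k : ℤ, f (t + k) * Complex.exp (2 * Real.pi * I * k * ξ)

/-- The symbol `D(ξ) = ∑_k d_k e^{2πikξ}` of a finitely supported mask. -/
noncomputable def symbol (d : ℤ →₀ ℂ) (ξ : ℝ) : ℂ :=
  d.sum fun k c => c * Complex.exp (2 * Real.pi * I * k * ξ)

/-- The dilation equation `φ(t/2) = ∑_k d_k φ(t-k)`. -/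
def IsRefinable (φ : ℝ → ℂ) (d : ℤ →₀ ℂ) : Prop :=
  ∀ t : ℝ, φ (t / 2) = d.sum fun k c => c * φ (t - k)

/-- The symbol has a pair of symmetric zeros. -/
def HasSymmetricZeros (d : ℤ →₀ ℂ) : Prop :=
  ∃ ξ : ℝ, 0 ≤ ξ ∧ ξ < 1 ∧ symbol d ξ = 0 ∧ symbol d (ξ + 1 / 2) = 0

/-- The hat function on `[0,2]`. -/
noncomputable def hat (t : ℝ) : ℝ := max 0 (1 - |t - 1|)

/-- The trapezoid `(1/3) χ_[0,3) * χ_[0,1)`. -/
noncomputable def trap (t : ℝ) : ℝ := (hat t + hat (t - 1) + hat (t - 2)) / 3

noncomputable def mask : ℤ →₀ ℂ :=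
  Finsupp.single 0 (1 / 2) + Finsupp.single 1 (1 / 2) + Finsupp.single 3 (1 / 2) +
    Finsupp.single 4 (1 / 2)

theorem hat_nonneg (t : ℝ) : 0 ≤ hat t := le_max_left _ _

theorem hat_zero_of_le {t : ℝ} (h : t ≤ 0) : hat t = 0 := by
  unfold hat
  rw [abs_of_nonpos (by linarith)]
  exact max_eq_left (by linarith)

theorem hat_zero_of_ge {t : ℝ} (h : 2 ≤ t) : hat t = 0 := by
  unfold hat
  rw [abs_of_nonneg (by linarith)]
  exact max_eq_left (by linarith)

theorem hat_left {t : ℝ} (h0 : 0 ≤ t) (h1 : t ≤ 1) : hat t = t := by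
  unfold hat
  rw [abs_of_nonpos (by linarith), max_eq_right (by linarith)]
  ring

theorem hat_right {t : ℝ} (h0 : 1 ≤ t) (h1 : t ≤ 2) : hat t = 2 - t := by
  unfold hat
  rw [abs_of_nonneg (by linarith), max_eq_right (by linarith)]
  ring

theorem hat_refine (t : ℝ) : hat (t / 2) = hat t / 2 + hat (t - 1) + hat (t - 2) / 2 := by
  rcases le_total t 0 with h | h
  · rw [hat_zero_of_le (by linarith), hat_zero_of_le (by linarith), hat_zero_of_le (by linarith),
      hat_zero_of_le (by linarith)]
    ring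
  rcases le_total t 1 with h1 | h1
  · rw [hat_left (t := t / 2) (by linarith) (by linarith), hat_left (t := t) (by linarith) h1,
      hat_zero_of_le (t := t - 1) (by linarith), hat_zero_of_le (t := t - 2) (by linarith)]
    ring
  rcases le_total t 2 with h2 | h2
  · rw [hat_left (t := t / 2) (by linarith) (by linarith), hat_right (t := t) (by linarith) h2,
      hat_left (t := t - 1) (by linarith) (by linarith),
      hat_zero_of_le (t := t - 2) (by linarith)]
    ring
  rcases le_total t 3 with h3 | h3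
  · rw [hat_right (t := t / 2) (by linarith) (by linarith), hat_zero_of_ge (t := t) (by linarith),
      hat_right (t := t - 1) (by linarith) (by linarith),
      hat_left (t := t - 2) (by linarith) (by linarith)]
    ring
  rcases le_total t 4 with h4 | h4
  · rw [hat_right (t := t / 2) (by linarith) (by linarith), hat_zero_of_ge (t := t) (by linarith),
      hat_zero_of_ge (t := t - 1) (by linarith),
      hat_right (t := t - 2) (by linarith) (by linarith)]
    ring
  · rw [hat_zero_of_ge (by linarith), hat_zero_of_ge (by linarith), hat_zero_of_ge (by linarith),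
      hat_zero_of_ge (by linarith)]
    ring

theorem trap_refine (t : ℝ) :
    trap (t / 2) = (trap t + trap (t - 1) + trap (t - 3) + trap (t - 4)) / 2 := by
  unfold trap
  have h0 := hat_refine t
  have h1 := hat_refine (t - 2)
  have h2 := hat_refine (t - 4)
  have e1 : (t - 2) / 2 = t / 2 - 1 := by ring
  have e2 : (t - 4) / 2 = t / 2 - 2 := by ring
  rw [e1] at h1
  rw [e2] at h2
  have a1 : t - 2 - 1 = t - 3 := by ring
  have a2 : t - 2 - 2 = t - 4 := by ring
  have a3 : t - 4 - 1 = t - 5 := by ring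
  have a4 : t - 4 - 2 = t - 6 := by ring
  have a5 : t - 1 - 1 = t - 2 := by ring
  have a6 : t - 1 - 2 = t - 3 := by ring
  have a7 : t - 3 - 1 = t - 4 := by ring
  have a8 : t - 3 - 2 = t - 5 := by ring
  rw [a1, a2] at h1
  rw [a3, a4] at h2
  rw [a5, a6, a7, a8, a3, a4, h0, h1, h2]
  ring

theorem continuous_hat : Continuous hat := by
  unfold hat
  fun_prop

theorem continuous_trap : Continuous trap := by
  unfold trap
  have := continuous_hat
  fun_prop

theorem trap_zero_of_notMem {t : ℝ} (h : t ∉ Set.Icc (0 : ℝ) 4) : trap t = 0 := by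
  simp only [Set.mem_Icc, not_and_or, not_le] at h
  unfold trap
  rcases h with h | h
  · rw [hat_zero_of_le (by linarith), hat_zero_of_le (by linarith), hat_zero_of_le (by linarith)]
    ring
  · rw [hat_zero_of_ge (by linarith), hat_zero_of_ge (by linarith), hat_zero_of_ge (by linarith)]
    ring

/-- The function of the counterexample, complex-valued. -/
noncomputable def phi (t : ℝ) : ℂ := (trap t : ℂ)

theorem sum_mask (g : ℤ → ℂ) :
    (mask.sum fun k c => c * g k) = (g 0 + g 1 + g 3 + g 4) / 2 := by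
  unfold mask
  rw [Finsupp.sum_add_index', Finsupp.sum_add_index', Finsupp.sum_add_index',
    Finsupp.sum_single_index, Finsupp.sum_single_index, Finsupp.sum_single_index,
    Finsupp.sum_single_index]
  · ring
  all_goals first
    | simp
    | (intros; ring)

theorem phi_refinable : IsRefinable phi mask := by
  intro t
  rw [sum_mask (fun k => phi (t - k))]
  unfold phi
  rw [trap_refine]
  push_cast
  simp

theorem symbol_mask (ξ : ℝ) : symbol mask ξ =
    (1 + Complex.exp (2 * Real.pi * I * ξ)) * (1 + Complex.exp (2 * Real.pi * I * ξ) ^ 3) / 2 := by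
  unfold symbol
  rw [sum_mask (fun k => Complex.exp (2 * Real.pi * I * k * ξ))]
  have h3 : Complex.exp (2 * Real.pi * I * ((3 : ℤ) : ℂ) * ξ)
      = Complex.exp (2 * Real.pi * I * ξ) ^ 3 := by
    rw [← Complex.exp_nat_mul]; congr 1; push_cast; ring
  have h4 : Complex.exp (2 * Real.pi * I * ((4 : ℤ) : ℂ) * ξ)
      = Complex.exp (2 * Real.pi * I * ξ) ^ 4 := by
    rw [← Complex.exp_nat_mul]; congr 1; push_cast; ring
  rw [h3, h4]
  simp
  ring

theorem no_symmetric : ¬ HasSymmetricZeros mask := by
  rintro ⟨ξ, -, -, h1, h2⟩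
  rw [symbol_mask] at h1 h2
  have e : Complex.exp (2 * Real.pi * I * ((ξ + 1 / 2 : ℝ) : ℂ))
      = - Complex.exp (2 * Real.pi * I * ξ) := by
    have : (2 * Real.pi * I * ((ξ + 1 / 2 : ℝ) : ℂ)) = 2 * Real.pi * I * ξ + Real.pi * I := by
      push_cast; ring
    rw [this, Complex.exp_add, Complex.exp_pi_mul_I]
    ring
  rw [e] at h2
  set z := Complex.exp (2 * Real.pi * I * ξ) with hz
  have hz0 : z ≠ 0 := Complex.exp_ne_zero _
  have g1 : z ^ 3 = -1 := by
    rcases mul_eq_zero.1 ((div_eq_zero_iff.1 h1).resolve_right two_ne_zero) with h | h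
    · have : z = -1 := by linear_combination h
      rw [this]; norm_num
    · linear_combination h
  have g2 : z ^ 3 = 1 := by
    rcases mul_eq_zero.1 ((div_eq_zero_iff.1 h2).resolve_right two_ne_zero) with h | h
    · have : z = 1 := by linear_combination -h
      rw [this]; norm_num
    · linear_combination -h
  rw [g1] at g2
  norm_num at g2

/-- The cube root of unity `e^{2πi/3}`. -/
noncomputable def om : ℂ := Complex.exp (2 * Real.pi * I / 3)

theorem om_ne_zero : om ≠ 0 := Complex.exp_ne_zero _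

theorem om_cube : om ^ 3 = 1 := by
  unfold om
  rw [← Complex.exp_nat_mul]
  have : ((3 : ℕ) : ℂ) * (2 * Real.pi * I / 3) = 2 * Real.pi * I := by push_cast; ring
  rw [this, Complex.exp_two_pi_mul_I]

theorem om_ne_one : om ≠ 1 := by
  unfold om
  intro h
  rw [Complex.exp_eq_one_iff] at h
  obtain ⟨n, hn⟩ := h
  have h2 : (2 * Real.pi * I : ℂ) ≠ 0 := by
    simp [Real.pi_ne_zero]
  have h3 : (2 * Real.pi * I : ℂ) * (3 * n - 1) = 0 := by
    linear_combination (-3 : ℂ) * hn
  rcases mul_eq_zero.1 h3 with h | h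
  · exact h2 h
  · have : (3 * n - 1 : ℤ) = 0 := by exact_mod_cast h
    omega

theorem om_sum : 1 + om + om ^ 2 = 0 := by
  have h : (om - 1) * (1 + om + om ^ 2) = 0 := by
    linear_combination om_cube
  exact (mul_eq_zero.1 h).resolve_left (sub_ne_zero.2 om_ne_one)

theorem exp_third (k : ℤ) :
    Complex.exp (2 * Real.pi * I * k * ((1 / 3 : ℝ) : ℂ)) = om ^ k := by
  unfold om
  rw [← Complex.exp_int_mul]
  congr 1
  push_cast
  ring

theorem summable_hat (t : ℝ) : Summable fun k : ℤ => (hat (t + k) : ℂ) * om ^ k := by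
  apply summable_of_ne_finset_zero (s := Finset.Icc ⌈-t⌉ ⌊2 - t⌋)
  intro k hk
  rw [Finset.mem_Icc, not_and_or, not_le, not_le] at hk
  rcases hk with h | h
  · have h' : (k : ℝ) < -t := Int.lt_ceil.1 h
    rw [hat_zero_of_le (by linarith)]
    simp
  · have h' : 2 - t < (k : ℝ) := Int.floor_lt.1 h
    rw [hat_zero_of_ge (by linarith)]
    simp

theorem shift_hat (t : ℝ) (f : ℤ → ℂ) (hf : ∀ k, f k = (hat (t + k - 1) : ℂ) * om ^ k) :
    Summable f ∧ ∑' k, f k = om * ∑' k : ℤ, (hat (t + k) : ℂ) * om ^ k := by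
  have key : ∀ k : ℤ, f (k + 1) = om * ((hat (t + k) : ℂ) * om ^ k) := by
    intro k
    rw [hf]
    have : t + ((k + 1 : ℤ) : ℝ) - 1 = t + k := by push_cast; ring
    rw [this, zpow_add_one₀ om_ne_zero]
    ring
  have hs : Summable fun k : ℤ => f (k + 1) := by
    simp_rw [key]
    exact (summable_hat t).mul_left om
  constructor
  · exact ((Equiv.addRight (1 : ℤ)).summable_iff (f := f)).1 hs
  · rw [← (Equiv.addRight (1 : ℤ)).tsum_eq f]
    simp only [Equiv.coe_addRight]
    simp_rw [key]
    rw [tsum_mul_left]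

theorem zak_phi (t : ℝ) : zak phi t (1 / 3) = 0 := by
  unfold zak
  simp_rw [exp_third]
  obtain ⟨s1, e1⟩ := shift_hat t (fun k => (hat (t + k - 1) : ℂ) * om ^ k) (fun _ => rfl)
  obtain ⟨s2, e2⟩ := shift_hat (t - 1) (fun k => (hat (t + k - 2) : ℂ) * om ^ k) (fun k => by
    have : t + (k : ℝ) - 2 = t - 1 + k - 1 := by ring
    simp only [this])
  have e1' : ∑' k : ℤ, (hat (t - 1 + k) : ℂ) * om ^ k
      = om * ∑' k : ℤ, (hat (t + k) : ℂ) * om ^ k := by
    rw [← e1]
    congr 1
    funext k
    have : t - 1 + (k : ℝ) = t + k - 1 := by ring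
    rw [this]
  rw [e1'] at e2
  have split : ∀ k : ℤ, phi (t + k) * om ^ k = (1 / 3) * ((hat (t + k) : ℂ) * om ^ k) +
      (1 / 3) * ((hat (t + k - 1) : ℂ) * om ^ k) + (1 / 3) * ((hat (t + k - 2) : ℂ) * om ^ k) := by
    intro k
    unfold phi trap
    push_cast
    ring
  simp_rw [split]
  rw [Summable.tsum_add (((summable_hat t).mul_left _).add (s1.mul_left _)) (s2.mul_left _),
    Summable.tsum_add ((summable_hat t).mul_left _) (s1.mul_left _), tsum_mul_left,
    tsum_mul_left, tsum_mul_left, e1, e2]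
  linear_combination (1 / 3) * (∑' k : ℤ, (hat (t + k) : ℂ) * om ^ k) * om_sum

theorem continuous_phi : Continuous phi := Complex.continuous_ofReal.comp continuous_trap

theorem compact_phi : HasCompactSupport phi := by
  apply HasCompactSupport.intro (isCompact_Icc (a := (0 : ℝ)) (b := 4))
  intro x hx
  unfold phi
  rw [trap_zero_of_notMem hx]
  simp

theorem trap_two : trap 2 = 1 / 3 * (0 + 1 + 0) := by
  unfold trap
  rw [hat_zero_of_ge (le_refl _), hat_left (by norm_num) (by norm_num),
    hat_zero_of_le (by norm_num)]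
  norm_num

theorem phi_ne_zero : phi ≠ 0 := by
  intro h
  have : phi 2 = 0 := by rw [h]; rfl
  unfold phi at this
  rw [trap_two] at this
  norm_num at this

theorem integral_hat (a : ℝ) : ∫ t, hat (t - a) = 1 := by
  rw [integral_sub_right_eq_self (fun t => hat t) a]
  have h1 : ∫ t, hat t = ∫ t in Set.Ioc (0 : ℝ) 2, hat t := by
    rw [setIntegral_eq_integral_of_forall_compl_eq_zero]
    intro x hx
    simp only [Set.mem_Ioc, not_and_or, not_lt, not_le] at hx
    rcases hx with h | h
    · exact hat_zero_of_le h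
    · exact hat_zero_of_ge h.le
  rw [h1, ← intervalIntegral.integral_of_le (by norm_num)]
  have hi : ∀ a b : ℝ, IntervalIntegrable hat volume a b := fun a b =>
    continuous_hat.intervalIntegrable a b
  rw [← intervalIntegral.integral_add_adjacent_intervals (hi 0 1) (hi 1 2)]
  have e1 : ∫ t in (0 : ℝ)..1, hat t = ∫ t in (0 : ℝ)..1, t := by
    apply intervalIntegral.integral_congr
    intro x hx
    rw [Set.uIcc_of_le (by norm_num)] at hx
    exact hat_left hx.1 hx.2
  have e2 : ∫ t in (1 : ℝ)..2, hat t = ∫ t in (1 : ℝ)..2, (2 - t) := by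
    apply intervalIntegral.integral_congr
    intro x hx
    rw [Set.uIcc_of_le (by norm_num)] at hx
    exact hat_right hx.1 hx.2
  rw [e1, e2]
  rw [intervalIntegral.integral_sub (by simp) (by simp)]
  simp
  norm_num

theorem integrable_hat (a : ℝ) : Integrable fun t => hat (t - a) := by
  have h : Integrable hat := by
    apply continuous_hat.integrable_of_hasCompactSupport
    apply HasCompactSupport.intro (isCompact_Icc (a := (0 : ℝ)) (b := 2))
    intro x hx
    simp only [Set.mem_Icc, not_and_or, not_le] at hx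
    rcases hx with h | h
    · exact hat_zero_of_le h.le
    · exact hat_zero_of_ge h.le
  exact h.comp_sub_right a

theorem integral_phi : ∫ t, phi t = 1 := by
  unfold phi
  rw [integral_complex_ofReal]
  have : ∫ t, trap t = 1 := by
    have hh : ∀ t, trap t = (1 / 3 : ℝ) * (hat (t - 0) + hat (t - 1) + hat (t - 2)) := by
      intro t; unfold trap; rw [sub_zero]; ring
    have i01 : Integrable fun a => hat (a - 0) + hat (a - 1) :=
      (integrable_hat 0).add (integrable_hat 1)
    simp_rw [hh]
    rw [integral_const_mul, integral_add i01 (integrable_hat 2),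
      integral_add (integrable_hat 0) (integrable_hat 1), integral_hat,
      integral_hat, integral_hat]
    norm_num
  rw [this]
  simp

/-- Rioul's conjecture fails: a nonzero continuous compactly supported refinable function whose
symbol has no pair of symmetric zeros, and all of whose Zak transforms `ξ ↦ Zφ(t,ξ)` vanish
somewhere. The function is moreover real, nonnegative and of integral one. -/
theorem result : ∃ (φ : ℝ → ℂ) (d : ℤ →₀ ℂ),
    φ ≠ 0 ∧ Continuous φ ∧ HasCompactSupport φ ∧ IsRefinable φ d ∧ ¬ HasSymmetricZeros d ∧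
    (∀ t, (φ t).im = 0 ∧ 0 ≤ (φ t).re) ∧ ∫ t, φ t = 1 ∧
    ∀ t : ℝ, ∃ ξ : ℝ, zak φ t ξ = 0 := by
  refine ⟨phi, mask, phi_ne_zero, continuous_phi, compact_phi, phi_refinable, no_symmetric,
    ?_, integral_phi, fun t => ⟨1 / 3, ?_⟩⟩
  · intro t
    constructor
    · unfold phi; simp
    · unfold phi trap
      rw [Complex.ofReal_re]
      have h1 := hat_nonneg t
      have h2 := hat_nonneg (t - 1)
      have h3 := hat_nonneg (t - 2)
      positivity
  · exact zak_phi t

end Pool.Agent.Results.MP_057a77_an.Rioul
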